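import Mathlib
import Pool.Agent.Lib.MP_f8b1fe_co.Assemble

set_option autoImplicit false

namespace Pool.Agent.Results.MP_f8b1fe_co.RatioOne

open Pool.Agent.Lib.MP_f8b1fe_co Filter Set

lemma transversalNumber_le {V : Type} [Finite V] (K : AbstractSimplicialComplex V) :
    transversalNumber K ≤ Nat.card V := by
  classical
  have : Fintype V := Fintype.ofFinite V
  have hmem : (Finset.univ : Finset V).card ∈
      {k | ∃ W : Finset V, IsTransversal K W ∧ W.card = k} := by
    refine ⟨Finset.univ, ?_, rfl⟩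
    intro F hF
    obtain ⟨v, hv⟩ := (K.isRelLowerSet_faces hF.1).1
    exact ⟨v, hv, Finset.mem_univ v⟩
  have := Nat.sInf_le hmem
  rw [Finset.card_univ, ← Nat.card_eq_fintype_card] at this
  exact this

lemma ratio_le_one {V : Type} [Finite V] (K : AbstractSimplicialComplex V) :
    transversalRatio K ≤ 1 := by
  unfold transversalRatio
  apply div_le_one_of_le₀ _ (Nat.cast_nonneg _)
  exact_mod_cast transversalNumber_le K

lemma ratio_nonneg {V : Type} (K : AbstractSimplicialComplex V) : 0 ≤ transversalRatio K := by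
  unfold transversalRatio
  positivity

/-- limsup of suprema of sets of reals in `[0,1]` that come arbitrarily close to `1` for
arbitrarily large indices -/
lemma limsup_eq_one (A : ℕ → Set ℝ) (h0 : ∀ n, ∀ r ∈ A n, 0 ≤ r) (h1 : ∀ n, ∀ r ∈ A n, r ≤ 1)
    (h2 : ∀ ε : ℝ, 0 < ε → ∀ n₀ : ℕ, ∃ n, n₀ ≤ n ∧ ∃ r ∈ A n, 1 - ε ≤ r) :
    Filter.limsup (fun n => sSup (A n)) Filter.atTop = 1 := by
  have hle : ∀ n, sSup (A n) ≤ 1 := fun n => Real.sSup_le (h1 n) zero_le_one
  have hge : ∀ n, 0 ≤ sSup (A n) := fun n => Real.sSup_nonneg (h0 n)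
  have hbdd : IsBoundedUnder (· ≤ ·) atTop (fun n => sSup (A n)) := isBoundedUnder_of ⟨1, hle⟩
  have hbdd' : IsBoundedUnder (· ≥ ·) atTop (fun n => sSup (A n)) := isBoundedUnder_of ⟨0, hge⟩
  apply le_antisymm
  · exact limsup_le_of_le hbdd'.isCoboundedUnder_le (Eventually.of_forall hle)
  · apply le_of_forall_pos_le_add
    intro ε hε
    have h3 : 1 - ε ≤ Filter.limsup (fun n => sSup (A n)) Filter.atTop := by
      apply le_limsup_of_frequently_le _ hbdd
      rw [frequently_atTop]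
      intro n₀
      obtain ⟨n, hn, r, hr, hr1⟩ := h2 ε hε n₀
      exact ⟨n, hn, hr1.trans (le_csSup ⟨1, h1 n⟩ hr)⟩
    linarith

/-- For every `d ≥ 4` the limits superior of the transversal ratios of simplicial `d`-polytopes and
of simplicial `(d-1)`-spheres coincide: both are equal to `1`. -/
theorem result : ∀ d : ℕ, 4 ≤ d → tauP d = tauS d ∧ tauS d = 1 := by
  intro d hd
  obtain ⟨m, rfl⟩ : ∃ m, d = m + 3 := ⟨d - 3, by omega⟩
  have hm : 0 < m := by omega
  have hP : tauP (m + 3) = 1 := by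
    unfold tauP
    apply limsup_eq_one
    · rintro n r ⟨Q, hQ, -, rfl⟩; exact ratio_nonneg _
    · rintro n r ⟨Q, hQ, -, rfl⟩
      have : Finite (Q.extremePoints ℝ) := hQ.finite_extremePoints
      exact ratio_le_one _
    · intro ε hε n₀
      obtain ⟨Q, hQ, hn, hr⟩ := exists_polytope hm ε hε n₀
      exact ⟨_, hn, _, ⟨Q, hQ, rfl, rfl⟩, hr⟩
  have hS : tauS (m + 3) = 1 := by
    unfold tauS
    apply limsup_eq_one
    · rintro n r ⟨V, _, K, -, -, rfl⟩; exact ratio_nonneg _
    · rintro n r ⟨V, _, K, -, -, rfl⟩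
      exact ratio_le_one _
    · intro ε hε n₀
      obtain ⟨Q, hQ, hn, hr⟩ := exists_polytope hm ε hε n₀
      have : Finite (Q.extremePoints ℝ) := hQ.finite_extremePoints
      let fQ : Fintype (Q.extremePoints ℝ) := Fintype.ofFinite _
      exact ⟨_, hn, _, ⟨Q.extremePoints ℝ, fQ, boundaryComplex Q hQ,
        isSimplicialSphere_boundaryComplex hQ, rfl, rfl⟩, hr⟩
  exact ⟨hP.trans hS.symm, hS⟩

end Pool.Agent.Results.MP_f8b1fe_co.RatioOne
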